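import Pool.Agent.W187.WQ.BotS

set_option autoImplicit false
set_option linter.all false

/-! Project WQ (helper187): optimal windows from Chebyshev polynomials. -/

open MeasureTheory Set Filter

namespace Pool.Agent.W337.WQ

open Pool.Agent.W187.WQ

theorem intg {f g : ℝ → ℝ} (hf : Continuous f) (hc : HasCompactSupport f) (hg : Continuous g) :
    Integrable (fun x => f x * g x) :=
  (hf.mul hg).integrable_of_hasCompactSupport hc.mul_right

/-- one integration by parts -/
theorem parts {f u v : ℝ → ℝ} (hf : ContDiff ℝ 1 f) (hc : HasCompactSupport f)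
    (hv : ∀ x, HasDerivAt v (u x) x) (hu : Continuous u) :
    ∫ x, f x * u x = - ∫ x, deriv f x * v x := by
  have hvc : Continuous v := continuous_iff_continuousAt.2 fun x => (hv x).continuousAt
  exact integral_mul_deriv_eq_deriv_mul_of_integrable
    (fun x _ => (hf.differentiable one_ne_zero x).hasDerivAt) (fun x _ => hv x)
    (intg hf.continuous hc hu) (intg hf.continuous_deriv_one hc.deriv hvc)
    (intg hf.continuous hc hvc)

theorem parts2 {f : ℝ → ℝ} (hf : ContDiff ℝ 2 f) (hc : HasCompactSupport f) {ω : ℝ} (hω : ω ≠ 0) :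
    ∫ x, f x * Real.cos (ω * x) = -(1 / ω ^ 2) * ∫ x, deriv (deriv f) x * Real.cos (ω * x) := by
  have hf1 : ContDiff ℝ 1 (deriv f) := by
    have h : ContDiff ℝ (1 + 1) f := by
      norm_num; exact hf
    exact (contDiff_succ_iff_deriv.1 h).2.2
  have hs : ∀ x, HasDerivAt (fun x => Real.sin (ω * x) / ω) (Real.cos (ω * x)) x := by
    intro x
    have h := ((Real.hasDerivAt_sin (ω * x)).comp x ((hasDerivAt_id x).const_mul ω)).div_const ω
    refine h.congr_deriv ?_
    field_simp
  have hcs : ∀ x, HasDerivAt (fun x => -Real.cos (ω * x) / ω) (Real.sin (ω * x)) x := by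
    intro x
    have h := ((Real.hasDerivAt_cos (ω * x)).neg.comp x ((hasDerivAt_id x).const_mul ω)).div_const ω
    refine h.congr_deriv ?_
    field_simp
  have h1 := parts (hf.of_le (by norm_num)) hc hs (by fun_prop)
  have h2 := parts hf1 hc.deriv hcs (by fun_prop)
  rw [h1]
  have h3 : ∫ x, deriv f x * (Real.sin (ω * x) / ω) = (1 / ω) * ∫ x, deriv f x * Real.sin (ω * x) := by
    rw [← integral_const_mul]
    refine integral_congr_ae (Eventually.of_forall fun x => ?_)
    simp only
    ring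
  have h4 : ∫ x, deriv (deriv f) x * (-Real.cos (ω * x) / ω) =
      -(1 / ω) * ∫ x, deriv (deriv f) x * Real.cos (ω * x) := by
    rw [← integral_const_mul]
    refine integral_congr_ae (Eventually.of_forall fun x => ?_)
    simp only
    ring
  rw [h3, h2, h4]
  ring

theorem cos_le {g : ℝ → ℝ} (hg : Continuous g) (hc : HasCompactSupport g) (ω : ℝ) :
    |∫ x, g x * Real.cos (ω * x)| ≤ ∫ x, |g x| := by
  rw [← Real.norm_eq_abs]
  refine (norm_integral_le_integral_norm _).trans ?_
  refine integral_mono_of_nonneg (Eventually.of_forall fun x => norm_nonneg _) ?_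
    (Eventually.of_forall fun x => ?_)
  · exact (hg.abs).integrable_of_hasCompactSupport (hc.comp_left (g := fun y : ℝ => |y|) abs_zero)
  · simp only [Real.norm_eq_abs, abs_mul]
    exact mul_le_of_le_one_right (abs_nonneg _) (Real.abs_cos_le_one _)

/-- even windows with known transform -/
structure Wd (h : ℝ → ℝ) (r : ℝ) (F : ℝ → ℝ) : Prop where
  cd : ContDiff ℝ 2 h
  ev : ∀ x, h (-x) = h x
  sp : ∀ x, r ≤ |x| → h x = 0
  ft : ∀ ω, ∫ x, h x * Real.cos (ω * x) = F ω

theorem Wd.cs {h : ℝ → ℝ} {r : ℝ} {F : ℝ → ℝ} (H : Wd h r F) : HasCompactSupport h := by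
  refine HasCompactSupport.intro (isCompact_Icc (a := -r) (b := r)) fun x hx => H.sp x ?_
  by_contra hlt
  push Not at hlt
  rw [abs_lt] at hlt
  exact hx ⟨hlt.1.le, hlt.2.le⟩

theorem Wd.mono {h : ℝ → ℝ} {r r' : ℝ} {F : ℝ → ℝ} (H : Wd h r F) (hr : r ≤ r') : Wd h r' F :=
  ⟨H.cd, H.ev, fun x hx => H.sp x (hr.trans hx), H.ft⟩

theorem Wd.lin {h h' : ℝ → ℝ} {r : ℝ} {F F' : ℝ → ℝ} (H : Wd h r F) (H' : Wd h' r F') (a : ℝ) :
    Wd (fun x => a * h x - h' x) r (fun ω => a * F ω - F' ω) := by
  refine ⟨?_, ?_, ?_, ?_⟩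
  · exact (contDiff_const.mul H.cd).sub H'.cd
  · intro x; simp only [H.ev, H'.ev]
  · intro x hx; simp only [H.sp x hx, H'.sp x hx]; ring
  · intro ω
    have hco : Continuous fun x => Real.cos (ω * x) := by fun_prop
    rw [← H.ft, ← H'.ft, ← integral_const_mul, ← integral_sub
      ((intg H.cd.continuous H.cs hco).const_mul a) (intg H'.cd.continuous H'.cs hco)]
    refine integral_congr_ae (Eventually.of_forall fun x => ?_)
    simp only
    ring

theorem Wd.shift {h : ℝ → ℝ} {r : ℝ} {F : ℝ → ℝ} (H : Wd h r F) (δ : ℝ) (hδ : 0 ≤ δ) :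
    Wd (fun x => (h (x - δ) + h (x + δ)) / 2) (r + δ) (fun ω => Real.cos (ω * δ) * F ω) := by
  refine ⟨?_, ?_, ?_, ?_⟩
  · refine ((H.cd.comp (contDiff_id.sub contDiff_const)).add
      (H.cd.comp (contDiff_id.add contDiff_const))).div_const 2
  · intro x
    have h1 : -x - δ = -(x + δ) := by ring
    have h2 : -x + δ = -(x - δ) := by ring
    simp only [h1, h2, H.ev]
    ring
  · intro x hx
    have h1 : r ≤ |x - δ| := by
      have := abs_sub_abs_le_abs_sub x δ
      rw [abs_of_nonneg hδ] at this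
      linarith
    have h2 : r ≤ |x + δ| := by
      have := abs_sub_abs_le_abs_sub x (-δ)
      rw [abs_neg, abs_of_nonneg hδ, sub_neg_eq_add] at this
      linarith
    simp only [H.sp _ h1, H.sp _ h2]
    ring
  · intro ω
    have e1 : ∫ x, h (x - δ) * Real.cos (ω * x) = ∫ x, h x * Real.cos (ω * (x + δ)) := by
      rw [← integral_sub_right_eq_self (fun x => h x * Real.cos (ω * (x + δ))) δ]
      simp only [sub_add_cancel]
    have e2 : ∫ x, h (x + δ) * Real.cos (ω * x) = ∫ x, h x * Real.cos (ω * (x - δ)) := by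
      rw [← integral_add_right_eq_self (fun x => h x * Real.cos (ω * (x - δ))) δ]
      simp only [add_sub_cancel_right]
    have c1 : Continuous fun x => h (x - δ) := H.cd.continuous.comp (by fun_prop)
    have c2 : Continuous fun x => h (x + δ) := H.cd.continuous.comp (by fun_prop)
    have s1 : HasCompactSupport fun x => h (x - δ) := by
      have := H.cs.comp_homeomorph (Homeomorph.addRight (-δ))
      simpa [Function.comp_def, sub_eq_add_neg] using this
    have s2 : HasCompactSupport fun x => h (x + δ) := by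
      have := H.cs.comp_homeomorph (Homeomorph.addRight δ)
      simpa [Function.comp_def] using this
    have hco : Continuous fun x => Real.cos (ω * x) := by fun_prop
    calc ∫ x, (h (x - δ) + h (x + δ)) / 2 * Real.cos (ω * x)
        = ∫ x, (1 / 2) * (h (x - δ) * Real.cos (ω * x) + h (x + δ) * Real.cos (ω * x)) := by
          refine integral_congr_ae (Eventually.of_forall fun x => ?_)
          simp only
          ring
      _ = (1 / 2) * ((∫ x, h x * Real.cos (ω * (x + δ))) + ∫ x, h x * Real.cos (ω * (x - δ))) := by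
          rw [integral_const_mul, integral_add (intg c1 s1 hco) (intg c2 s2 hco), e1, e2]
      _ = (1 / 2) * ∫ x, (2 * Real.cos (ω * δ)) * (h x * Real.cos (ω * x)) := by
          rw [← integral_add (intg H.cd.continuous H.cs (by fun_prop))
            (intg H.cd.continuous H.cs (by fun_prop))]
          congr 1
          refine integral_congr_ae (Eventually.of_forall fun x => ?_)
          simp only [mul_add, mul_sub, Real.cos_add, Real.cos_sub]
          ring
      _ = _ := by
          rw [integral_const_mul, H.ft]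
          ring

open Polynomial in
theorem cheb {B : ℝ → ℝ} {ε : ℝ} {F : ℝ → ℝ} (H : Wd B ε F) (κ δ : ℝ) (hδ : 0 ≤ δ) (n : ℕ) :
    ∃ h h' : ℝ → ℝ,
      Wd h (ε + n * δ) (fun ω => (Chebyshev.T ℝ (n : ℤ)).eval (κ * Real.cos (ω * δ)) * F ω) ∧
      Wd h' (ε + (n + 1) * δ)
        (fun ω => (Chebyshev.T ℝ ((n : ℤ) + 1)).eval (κ * Real.cos (ω * δ)) * F ω) := by
  induction n with
  | zero =>
    have H1 := H.shift δ hδ
    have H0 : Wd (fun _ => (0 : ℝ)) (ε + δ) (fun _ => 0) :=
      ⟨contDiff_const, fun _ => rfl, fun _ _ => rfl, fun ω => by simp⟩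
    refine ⟨B, fun x => κ * ((B (x - δ) + B (x + δ)) / 2) - 0, ?_, ?_⟩
    · have := H
      simpa using this
    · have := H1.lin H0 κ
      convert this using 2
      · push_cast; ring
      · simp [Chebyshev.T_one]
        ring
  | succ n ih =>
    obtain ⟨h, h', hh, hh'⟩ := ih
    have H2 := (hh'.shift δ hδ).lin (hh.mono (by nlinarith : ε + n * δ ≤ ε + (n + 1) * δ + δ)) (2 * κ)
    refine ⟨h', fun x => 2 * κ * ((h' (x - δ) + h' (x + δ)) / 2) - h x, ?_, ?_⟩
    · convert hh' using 3
      · push_cast; ring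
      · push_cast; ring
    · have e1 : ε + (((n + 1 : ℕ) : ℝ) + 1) * δ = ε + (n + 1) * δ + δ := by push_cast; ring
      have e2 : (fun ω => (Chebyshev.T ℝ (((n + 1 : ℕ) : ℤ) + 1)).eval (κ * Real.cos (ω * δ)) * F ω) =
          fun ω => 2 * κ * (Real.cos (ω * δ) *
            ((Chebyshev.T ℝ ((n : ℤ) + 1)).eval (κ * Real.cos (ω * δ)) * F ω)) -
            (Chebyshev.T ℝ (n : ℤ)).eval (κ * Real.cos (ω * δ)) * F ω := by
        funext ω
        have : ((n + 1 : ℕ) : ℤ) + 1 = (n : ℤ) + 2 := by push_cast; ring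
        rw [this, Chebyshev.T_add_two]
        simp only [eval_sub, eval_mul, eval_X, eval_ofNat]
        ring
      rw [e1, e2]
      exact H2

theorem cosh_cos_le {t : ℝ} (h0 : 0 ≤ t) (h1 : t ≤ Real.pi / 2) : Real.cosh t * Real.cos t ≤ 1 := by
  have hd1 : ∀ t, HasDerivAt (fun t => Real.sinh t * Real.cos t - Real.cosh t * Real.sin t)
      (-(2 * (Real.sinh t * Real.sin t))) t := by
    intro t
    have h := ((Real.hasDerivAt_sinh t).mul (Real.hasDerivAt_cos t)).sub
      ((Real.hasDerivAt_cosh t).mul (Real.hasDerivAt_sin t))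
    refine h.congr_deriv ?_
    ring
  have hd2 : ∀ t, HasDerivAt (fun t => Real.cosh t * Real.cos t)
      (Real.sinh t * Real.cos t - Real.cosh t * Real.sin t) t := by
    intro t
    have h := (Real.hasDerivAt_cosh t).mul (Real.hasDerivAt_cos t)
    refine h.congr_deriv ?_
    ring
  have hpi : Real.pi / 2 ≤ Real.pi := by linarith [Real.pi_pos]
  have a1 : AntitoneOn (fun t => Real.sinh t * Real.cos t - Real.cosh t * Real.sin t)
      (Icc 0 (Real.pi / 2)) := by
    refine antitoneOn_of_deriv_nonpos (convex_Icc _ _)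
      (fun x _ => (hd1 x).continuousAt.continuousWithinAt)
      (fun x _ => (hd1 x).differentiableAt.differentiableWithinAt) ?_
    intro x hx
    rw [interior_Icc] at hx
    rw [(hd1 x).deriv]
    have h3 : 0 ≤ Real.sinh x := Real.sinh_nonneg_iff.2 hx.1.le
    have h4 : 0 ≤ Real.sin x := Real.sin_nonneg_of_nonneg_of_le_pi hx.1.le (by linarith [hx.2])
    nlinarith [mul_nonneg h3 h4]
  have a2 : AntitoneOn (fun t => Real.cosh t * Real.cos t) (Icc 0 (Real.pi / 2)) := by
    refine antitoneOn_of_deriv_nonpos (convex_Icc _ _)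
      (fun x _ => (hd2 x).continuousAt.continuousWithinAt)
      (fun x _ => (hd2 x).differentiableAt.differentiableWithinAt) ?_
    intro x hx
    rw [interior_Icc] at hx
    rw [(hd2 x).deriv]
    have h5 := a1 (left_mem_Icc.2 (by linarith [Real.pi_pos])) ⟨hx.1.le, hx.2.le⟩ hx.1.le
    simpa using h5
  have h6 := a2 (left_mem_Icc.2 (by linarith [Real.pi_pos])) ⟨h0, h1⟩ h0
  simpa using h6

open Polynomial in
theorem T_le (N : ℕ) (τ y : ℝ) (hτ : 0 ≤ τ) (hy : |y| ≤ Real.cosh τ) :
    |(Chebyshev.T ℝ (N : ℤ)).eval y| ≤ Real.cosh (N * τ) := by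
  have hN : (0 : ℝ) ≤ N := Nat.cast_nonneg N
  have key : ∀ z, 0 ≤ z → z ≤ Real.cosh τ → |(Chebyshev.T ℝ (N : ℤ)).eval z| ≤ Real.cosh (N * τ) := by
    intro z hz0 hz
    rcases le_total z 1 with h | h
    · exact (Chebyshev.abs_eval_T_real_le_one _ (by rwa [abs_of_nonneg hz0])).trans
        (Real.one_le_cosh _)
    · have h1 : (Chebyshev.T ℝ (N : ℤ)).eval z = Real.cosh (N * Real.arcosh z) := by
        conv_lhs => rw [← Real.cosh_arcosh h]
        rw [Chebyshev.T_real_cosh]
        norm_cast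
      rw [h1, abs_of_pos (Real.cosh_pos _), Real.cosh_le_cosh, abs_mul, abs_mul]
      refine mul_le_mul_of_nonneg_left ?_ (abs_nonneg _)
      rw [← Real.cosh_le_cosh, Real.cosh_arcosh h]
      exact hz
  rcases le_total 0 y with h | h
  · exact key y h (by rwa [abs_of_nonneg h] at hy)
  · have h1 := key (-y) (by linarith) (by rwa [abs_of_nonpos h] at hy)
    rw [Chebyshev.T_eval_neg, abs_mul] at h1
    have h2 : |(((N : ℤ).negOnePow : ℤ) : ℝ)| = 1 := by
      rcases Int.units_eq_one_or ((N : ℤ).negOnePow) with h3 | h3 <;> rw [h3] <;> simp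
    rw [h2, one_mul] at h1
    exact h1

theorem win : S_WIN := by
  intro ε hε hε1
  -- the bump
  let f : ContDiffBump (0 : ℝ) := ⟨ε / 2, ε, by linarith, by linarith⟩
  let B : ℝ → ℝ := f.normed volume
  have hBc : ContDiff ℝ 4 B := f.contDiff_normed (n := 4)
  have hBs : HasCompactSupport B := f.hasCompactSupport_normed
  have hB2 : ContDiff ℝ 2 B := hBc.of_le (by norm_num)
  have hBi : ∫ x, B x = 1 := f.integral_normed
  have hBsp : ∀ x, ε ≤ |x| → B x = 0 := by
    intro x hx
    by_contra hne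
    have h1 : x ∈ Function.support B := hne
    rw [show Function.support B = Metric.ball 0 f.rOut from f.support_normed_eq, Metric.mem_ball,
      dist_zero_right, Real.norm_eq_abs] at h1
    exact absurd h1 (not_lt.2 hx)
  have hD2 : ContDiff ℝ 2 (deriv (deriv B)) := by
    have h : ContDiff ℝ (3 + 1) B := by norm_num; exact hBc
    have h3 := (contDiff_succ_iff_deriv.1 h).2.2
    have h' : ContDiff ℝ (2 + 1) (deriv B) := by norm_num; exact h3
    exact (contDiff_succ_iff_deriv.1 h').2.2
  have hD4 : Continuous (deriv (deriv (deriv (deriv B)))) := by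
    have h' : ContDiff ℝ (1 + 1) (deriv (deriv B)) := by norm_num; exact hD2
    have h1 := (contDiff_succ_iff_deriv.1 h').2.2
    exact h1.continuous_deriv_one
  set C2 := ∫ x, |deriv (deriv B) x| with hC2
  set C4 := ∫ x, |deriv (deriv (deriv (deriv B))) x| with hC4
  have hC2n : 0 ≤ C2 := integral_nonneg fun _ => abs_nonneg _
  have hC4n : 0 ≤ C4 := integral_nonneg fun _ => abs_nonneg _
  have b2 : ∀ ω : ℝ, ω ≠ 0 → |∫ x, B x * Real.cos (ω * x)| ≤ C2 / ω ^ 2 := by
    intro ω hω
    rw [parts2 hB2 hBs hω, abs_mul, abs_neg, abs_of_pos (by positivity : 0 < 1 / ω ^ 2)]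
    have h2 : C2 / ω ^ 2 = 1 / ω ^ 2 * C2 := by ring
    rw [h2]
    exact mul_le_mul_of_nonneg_left (cos_le hD2.continuous hBs.deriv.deriv ω) (by positivity)
  have b4 : ∀ ω : ℝ, ω ≠ 0 → |∫ x, B x * Real.cos (ω * x)| ≤ C4 / ω ^ 4 := by
    intro ω hω
    rw [parts2 hB2 hBs hω, parts2 hD2 hBs.deriv.deriv hω, abs_mul, abs_mul, abs_neg,
      abs_of_pos (by positivity : 0 < 1 / ω ^ 2)]
    have h1 := cos_le hD4 hBs.deriv.deriv.deriv.deriv ω
    have h2 : C4 / ω ^ 4 = 1 / ω ^ 2 * (1 / ω ^ 2 * C4) := by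
      field_simp
    rw [h2]
    exact mul_le_mul_of_nonneg_left (mul_le_mul_of_nonneg_left h1 (by positivity)) (by positivity)
  have HB : Wd B ε (fun ω => ∫ x, B x * Real.cos (ω * x)) :=
    ⟨hB2, fun x => f.normed_neg x, hBsp, fun _ => rfl⟩
  refine ⟨C2 + C4 + 1, by positivity, ?_⟩
  intro c hc
  -- the degree
  obtain ⟨N, hN⟩ := exists_nat_ge (Real.exp c)
  have hN1 : (1 : ℝ) ≤ N := (Real.one_le_exp (by linarith)).trans hN
  have hN0 : (0 : ℝ) < N := by linarith
  set τ := c / N with hτ
  have hτ0 : 0 ≤ τ := by positivity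
  obtain ⟨h, -, hh, -⟩ := cheb HB (Real.cosh τ) (1 / N) (by positivity) N
  have hNN : (N : ℝ) * (1 / N) = 1 := by field_simp
  have hNτ : (N : ℝ) * τ = c := by rw [hτ]; field_simp
  refine ⟨h, hh.cd, hh.ev, ?_, ?_, ?_⟩
  · intro x hx
    refine hh.sp x ?_
    rw [hNN]; linarith
  · have h1 := hh.ft 0
    simp only [zero_mul, Real.cos_zero, mul_one, hBi] at h1
    rw [h1, Polynomial.Chebyshev.T_real_cosh]
    rw [show (((N : ℤ) : ℝ)) * τ = c by push_cast; exact hNτ]
  · intro ω hω
    have hω0 : ω ≠ 0 := by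
      rintro rfl
      rw [abs_zero] at hω
      linarith
    have hω2 : 0 < ω ^ 2 := by positivity
    have h1 := hh.ft ω
    rw [h1, abs_mul]
    set th := |ω| / N with hth
    have hcos : Real.cos (ω * (1 / N)) = Real.cos th := by
      rw [← Real.cos_abs (ω * (1 / N)), abs_mul, abs_of_pos (by positivity : (0 : ℝ) < 1 / N), hth]
      congr 1
      ring
    rw [hcos]
    have hthτ : τ ≤ th := by
      rw [hτ, hth]
      exact div_le_div_of_nonneg_right hω hN0.le
    have hth0 : 0 ≤ th := hτ0.trans hthτ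
    rcases le_total th (Real.pi / 2) with hle | hge
    · have hc0 : 0 ≤ Real.cos th := Real.cos_nonneg_of_neg_pi_div_two_le_of_le
        (by linarith [Real.pi_pos]) hle
      have hy : |Real.cosh τ * Real.cos th| ≤ 1 := by
        rw [abs_of_nonneg (mul_nonneg (Real.cosh_pos _).le hc0)]
        refine le_trans (mul_le_mul_of_nonneg_right ?_ hc0) (cosh_cos_le hth0 hle)
        rw [Real.cosh_le_cosh, abs_of_nonneg hτ0, abs_of_nonneg hth0]
        exact hthτ
      have h2 := Polynomial.Chebyshev.abs_eval_T_real_le_one (N : ℤ) hy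
      have h3 := b2 ω hω0
      calc |Polynomial.eval (Real.cosh τ * Real.cos th) (Polynomial.Chebyshev.T ℝ (N : ℤ))| *
            |∫ x, B x * Real.cos (ω * x)| ≤ 1 * (C2 / ω ^ 2) :=
            mul_le_mul h2 h3 (abs_nonneg _) zero_le_one
        _ ≤ (C2 + C4 + 1) / ω ^ 2 := by
            rw [one_mul]
            exact div_le_div_of_nonneg_right (by linarith) hω2.le
    · have hy : |Real.cosh τ * Real.cos th| ≤ Real.cosh τ := by
        rw [abs_mul, abs_of_pos (Real.cosh_pos _)]
        exact mul_le_of_le_one_right (Real.cosh_pos _).le (Real.abs_cos_le_one _)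
      have h2 := T_le N τ _ hτ0 hy
      rw [hNτ] at h2
      have h2' : Real.cosh c ≤ Real.exp c := by
        rw [Real.cosh_eq]
        have : Real.exp (-c) ≤ Real.exp c := Real.exp_le_exp.2 (by linarith)
        linarith
      have h3 := b4 ω hω0
      have hωN : (N : ℝ) ≤ |ω| := by
        have h4 : (1 : ℝ) ≤ th := by
          have := Real.pi_gt_three
          linarith
        rw [hth, le_div_iff₀ hN0, one_mul] at h4
        exact h4
      have h5 : Real.exp c ≤ ω ^ 2 := by
        rw [← sq_abs]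
        have h6 : (1 : ℝ) ≤ |ω| := hN1.trans hωN
        nlinarith
      calc |Polynomial.eval (Real.cosh τ * Real.cos th) (Polynomial.Chebyshev.T ℝ (N : ℤ))| *
            |∫ x, B x * Real.cos (ω * x)| ≤ ω ^ 2 * (C4 / ω ^ 4) :=
            mul_le_mul (h2.trans (h2'.trans h5)) h3 (abs_nonneg _) hω2.le
        _ = C4 / ω ^ 2 := by field_simp
        _ ≤ (C2 + C4 + 1) / ω ^ 2 := div_le_div_of_nonneg_right (by linarith) hω2.le

end Pool.Agent.W337.WQ
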